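import Pool.Agent.N929.OM.Stm
import Pool.Agent.N929.ON.Asm

/-!
# The path of the loop O(n) model in general domains: the system of local moves
-/

set_option autoImplicit false
set_option linter.unusedVariables false

namespace Pool.Agent.N929.OM

open Finset Pool.Agent.N929.ON
open scoped Classical

noncomputable section

variable {V : Finset (ℤ × ℤ)} {η : ℤ × ℤ → Bool} {R : ℕ}

theorem bdy_cfg (V : Finset (ℤ × ℤ)) (η : ℤ × ℤ → Bool) (S : Finset (ℤ × ℤ)) :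
    Bdy V η (cfg V η S) := by
  intro f hf
  unfold cfg
  rw [if_neg hf]

theorem cfg_tg {f : ℤ × ℤ} (hf : f ∈ V) (S : Finset (ℤ × ℤ)) :
    cfg V η (tg f S) = Pool.Agent.N929.ON.flip f (cfg V η S) := by
  funext g
  unfold Pool.Agent.N929.ON.flip
  by_cases h : g = f
  · subst h
    rw [Function.update_self]
    unfold cfg
    rw [if_pos hf, if_pos hf, ← decide_not]
    congr 1
    rw [eq_iff_iff, mem_tg]
    simp
  · rw [Function.update_of_ne h]
    unfold cfg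
    by_cases hg : g ∈ V
    · rw [if_pos hg, if_pos hg]
      congr 1
      rw [eq_iff_iff, mem_tg]
      simp [h]
    · rw [if_neg hg, if_neg hg]

/-- the state where the path leaves the triangle `Q (3 j + 1)` -/
def col (V : Finset (ℤ × ℤ)) (η : ℤ × ℤ → Bool) (S : Finset (ℤ × ℤ)) (j : ℕ) : St :=
  if h : ∃ s i, Hit (cfg V η S) (3 * j + 1 : ℕ) i s then h.choose else start

theorem col_eq (hhit : S_HIT) {S : Finset (ℤ × ℤ)} {j : ℕ} {i : ℕ} {s : St}
    (h : Hit (cfg V η S) (3 * j + 1 : ℕ) i s) : col V η S j = s := by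
  have h1 : ∃ s i, Hit (cfg V η S) (3 * j + 1 : ℕ) i s := ⟨s, i, h⟩
  unfold col
  rw [dif_pos h1]
  obtain ⟨i', h2⟩ := h1.choose_spec
  exact (hhit.2.2.2 _ _ _ _ _ _ h2 h).2

/-- the face which is changed -/
def fc (V : Finset (ℤ × ℤ)) (η : ℤ × ℤ → Bool) (S : Finset (ℤ × ℤ)) (j : ℕ) : ℤ × ℤ :=
  mid (col V η S j)

/-- long -/
def Lg (V : Finset (ℤ × ℤ)) (η : ℤ × ℤ → Bool) (S : Finset (ℤ × ℤ)) (j : ℕ) : Prop :=
  Lng (cfg V η S) (col V η S j)

theorem mem_JJ (hhit : S_HIT) {S : Finset (ℤ × ℤ)} {j : ℕ} : j ∈ JJ V η R S ↔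
    3 * j + 4 ≤ R ∧ (∃ i, Hit (cfg V η S) (3 * j + 1 : ℕ) i (col V η S j)) ∧
      Good (cfg V η S) (col V η S j) := by
  unfold JJ
  rw [mem_filter, mem_range]
  constructor
  · rintro ⟨-, h1, i, s, h2, h3⟩
    have h4 := col_eq hhit h2
    rw [h4]
    exact ⟨h1, ⟨i, h2⟩, h3⟩
  · rintro ⟨h1, ⟨i, h2⟩, h3⟩
    exact ⟨by omega, h1, i, _, h2, h3⟩

theorem ex_hit (hhit : S_HIT) (hfl : Flat V η R) {S : Finset (ℤ × ℤ)} {j : ℕ}
    (hj : 3 * j + 4 ≤ R) : ∃ i, Hit (cfg V η S) (3 * j + 1 : ℕ) i (col V η S j) := by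
  obtain ⟨i, s, h1, -⟩ := hhit.1 V η (cfg V η S) R hfl (bdy_cfg _ _ _) ((3 * j + 1 : ℕ) : ℤ)
    (by push_cast; omega) (by push_cast; omega)
  rw [col_eq hhit h1]
  exact ⟨i, h1⟩

/-- one move -/
theorem move (hhit : S_HIT) (hpat : S_PAT) (htog : S_TOG) (hfl : Flat V η R) {S : Finset (ℤ × ℤ)}
    (hS : S ⊆ V) {j : ℕ} (hj : j ∈ JJ V η R S) {S' : Finset (ℤ × ℤ)}
    (hS' : S' = tg (fc V η S j) S) :
    S' ⊆ V ∧ JJ V η R S' = JJ V η R S ∧
      (∀ j', 3 * j' + 4 ≤ R → col V η S' j' = col V η S j') ∧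
      (Lg V η S' j ↔ ¬ Lg V η S j) ∧
      (∀ j', j' ≠ j → 3 * j' + 4 ≤ R → (Lg V η S' j' ↔ Lg V η S j')) ∧
      (¬ Lg V η S j → len V (cfg V η S') = len V (cfg V η S) + 2 ∧
        edg V (cfg V η S') = edg V (cfg V η S) + 2) ∧
      loops V (cfg V η S') = loops V (cfg V η S) ∧ Q R (fc V η S j) ∧
      Q ((3 * j + 4 : ℕ) : ℤ) (fc V η S j) ∧ ¬ Q ((3 * j + 1 : ℕ) : ℤ) (fc V η S j) := by
  obtain ⟨hj1, ⟨i, h2⟩, h3⟩ := (mem_JJ hhit).1 hj
  obtain ⟨t1, tQ, t2, t3, t4, t5, t6, t7, t8⟩ := htog V η (cfg V η S) R hfl (bdy_cfg _ _ _) j i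
    (col V η S j) hj1 h2 h3 (cfg V η S') (by
      rw [hS']
      refine cfg_tg ?_ S
      exact (htog V η (cfg V η S) R hfl (bdy_cfg _ _ _) j i _ hj1 h2 h3 _ rfl).1)
  have hcol : ∀ j', 3 * j' + 4 ≤ R → col V η S' j' = col V η S j' := by
    intro j' hj'
    by_cases h : j' = j
    · subst h
      exact col_eq hhit t3
    · obtain ⟨i', h4⟩ := ex_hit hhit hfl (S := S') hj'
      obtain ⟨i'', h5⟩ := (t8 j' h hj' (col V η S' j')).1.1 ⟨i', h4⟩
      exact (col_eq hhit h5).symm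
  have hsh : Q ((3 * j + 4 : ℕ) : ℤ) (fc V η S j) ∧ ¬ Q ((3 * j + 1 : ℕ) : ℤ) (fc V η S j) := by
    obtain ⟨-, p1, p2, p3⟩ := hhit.2.1 V η (cfg V η S) R hfl (bdy_cfg _ _ _) ((3 * j + 1 : ℕ) : ℤ)
      (by push_cast; omega) (by push_cast; omega) i (col V η S j) h2
    have p4 := (hpat ((3 * j + 1 : ℕ) : ℤ) (col V η S j) (by push_cast; omega) p1 p2 p3).1
      (fc V η S j) (by unfold fc; simp)
    have e : (((3 * j + 1 : ℕ) : ℤ) + 3) = ((3 * j + 4 : ℕ) : ℤ) := by push_cast; ring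
    rw [e] at p4
    exact p4
  refine ⟨?_, ?_, hcol, ?_, ?_, t6, t7, tQ, hsh⟩
  · rw [hS']
    exact tg_sub t1 hS
  · ext j'
    rw [mem_JJ hhit, mem_JJ hhit]
    refine and_congr_right fun hj' => ?_
    rw [hcol j' hj']
    by_cases h : j' = j
    · subst h
      exact ⟨fun _ => ⟨⟨i, h2⟩, h3⟩, fun _ => ⟨⟨i, t3⟩, t4⟩⟩
    · obtain ⟨a1, a2⟩ := t8 j' h hj' (col V η S j')
      have a3 := ex_hit hhit hfl (S := S) hj'
      rw [(a2 a3).1, a1]
  · unfold Lg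
    rw [hcol j hj1]
    exact t5
  · intro j' h hj'
    unfold Lg
    rw [hcol j' hj']
    exact ((t8 j' h hj' _).2 (ex_hit hhit hfl hj')).2

/-- the long case -/
theorem move' (hhit : S_HIT) (hpat : S_PAT) (htog : S_TOG) (hfl : Flat V η R) {S : Finset (ℤ × ℤ)}
    (hS : S ⊆ V) {j : ℕ} (hj : j ∈ JJ V η R S) {S' : Finset (ℤ × ℤ)}
    (hS' : S' = tg (fc V η S j) S) (hl : Lg V η S j) :
    len V (cfg V η S) = len V (cfg V η S') + 2 ∧
      edg V (cfg V η S) = edg V (cfg V η S') + 2 := by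
  obtain ⟨m1, m2, m3, m4, m5, m6, m7, m8, m9⟩ := move hhit hpat htog hfl hS hj hS'
  have hj1 := ((mem_JJ hhit).1 hj).1
  have h1 : S = tg (fc V η S' j) S' := by
    have : fc V η S' j = fc V η S j := by
      unfold fc
      rw [m3 j hj1]
    rw [this, hS', tg_tg]
  obtain ⟨-, -, -, -, -, k6, -⟩ := move hhit hpat htog hfl m1 (by rw [m2]; exact hj) h1
  exact k6 (fun h => (m4.1 h) hl)

open Pool.Agent.N929.EG in
/-- the system of local moves -/
def sysM (hhit : S_HIT) (hpat : S_PAT) (htog : S_TOG) (hfl : Flat V η R) : TS (Finset (ℤ × ℤ)) ℕ where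
  K N := V.powerset.filter (fun S => len V (cfg V η S) = N)
  len S := len V (cfg V η S)
  S S := (JJ V η R S).filter (fun j => ¬ Lg V η S j)
  B S := (JJ V η R S).filter (fun j => Lg V η S j)
  ins S j := tg (fc V η S j) S
  rem S j := tg (fc V η S j) S
  s := 2
  cf q q' := q = q'
  d := 1
  U N := range R
  hs := by norm_num
  len_K n w hw := (mem_filter.1 hw).2
  ins_K n w q hw hq := by
    obtain ⟨h1, h2⟩ := mem_filter.1 hw
    obtain ⟨h3, h4⟩ := mem_filter.1 hq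
    obtain ⟨m1, m2, m3, m4, m5, m6, m7, m8, m9⟩ := move hhit hpat htog hfl (mem_powerset.1 h1) h3 rfl
    refine mem_filter.2 ⟨mem_powerset.2 m1, ?_⟩
    rw [(m6 h4).1, h2]
  ins_B n w q hw hq := by
    obtain ⟨h1, h2⟩ := mem_filter.1 hw
    obtain ⟨h3, h4⟩ := mem_filter.1 hq
    obtain ⟨m1, m2, m3, m4, m5, m6, m7, m8, m9⟩ := move hhit hpat htog hfl (mem_powerset.1 h1) h3 rfl
    exact mem_filter.2 ⟨by rw [m2]; exact h3, m4.2 h4⟩
  rem_ins n w q hw hq := by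
    obtain ⟨h1, h2⟩ := mem_filter.1 hw
    obtain ⟨h3, h4⟩ := mem_filter.1 hq
    obtain ⟨m1, m2, m3, m4, m5, m6, m7, m8, m9⟩ := move hhit hpat htog hfl (mem_powerset.1 h1) h3 rfl
    have : fc V η (tg (fc V η w q) w) q = fc V η w q := by
      rw [fc, m3 q ((mem_JJ hhit).1 h3).1, fc]
    rw [this, tg_tg]
  rem_le n w q hw hq := by
    obtain ⟨h1, h2⟩ := mem_filter.1 hw
    obtain ⟨h3, h4⟩ := mem_filter.1 hq
    have := (move' hhit hpat htog hfl (mem_powerset.1 h1) h3 rfl h4).1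
    omega
  rem_K n w q hw hq := by
    obtain ⟨h1, h2⟩ := mem_filter.1 hw
    obtain ⟨h3, h4⟩ := mem_filter.1 hq
    obtain ⟨m1, m2, m3, m4, m5, m6, m7, m8, m9⟩ := move hhit hpat htog hfl (mem_powerset.1 h1) h3 rfl
    refine mem_filter.2 ⟨mem_powerset.2 m1, ?_⟩
    have := (move' hhit hpat htog hfl (mem_powerset.1 h1) h3 rfl h4).1
    omega
  rem_S n w q hw hq := by
    obtain ⟨h1, h2⟩ := mem_filter.1 hw
    obtain ⟨h3, h4⟩ := mem_filter.1 hq
    obtain ⟨m1, m2, m3, m4, m5, m6, m7, m8, m9⟩ := move hhit hpat htog hfl (mem_powerset.1 h1) h3 rfl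
    exact mem_filter.2 ⟨by rw [m2]; exact h3, fun h => (m4.1 h) h4⟩
  ins_rem n w q hw hq := by
    obtain ⟨h1, h2⟩ := mem_filter.1 hw
    obtain ⟨h3, h4⟩ := mem_filter.1 hq
    obtain ⟨m1, m2, m3, m4, m5, m6, m7, m8, m9⟩ := move hhit hpat htog hfl (mem_powerset.1 h1) h3 rfl
    have : fc V η (tg (fc V η w q) w) q = fc V η w q := by
      rw [fc, m3 q ((mem_JJ hhit).1 h3).1, fc]
    rw [this, tg_tg]
  disj n w q hw hq hq' := (mem_filter.1 hq).2 (mem_filter.1 hq').2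
  cf_symm q q' h := h.symm
  ins_S n w q q' hw hq hc := by
    obtain ⟨h1, h2⟩ := mem_filter.1 hw
    obtain ⟨h3, h4⟩ := mem_filter.1 hq
    obtain ⟨m1, m2, m3, m4, m5, m6, m7, m8, m9⟩ := move hhit hpat htog hfl (mem_powerset.1 h1) h3 rfl
    rw [mem_filter, mem_filter, m2]
    refine and_congr_right fun h => ?_
    rw [m5 q' (fun e => hc e.symm) ((mem_JJ hhit).1 h).1]
  ins_BB n w q q' hw hq hc := by
    obtain ⟨h1, h2⟩ := mem_filter.1 hw
    obtain ⟨h3, h4⟩ := mem_filter.1 hq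
    obtain ⟨m1, m2, m3, m4, m5, m6, m7, m8, m9⟩ := move hhit hpat htog hfl (mem_powerset.1 h1) h3 rfl
    rw [mem_filter, mem_filter, m2]
    refine and_congr_right fun h => ?_
    rw [m5 q' (fun e => hc e.symm) ((mem_JJ hhit).1 h).1]
  ins_comm n w q q' hw hq hq' hc := by
    obtain ⟨h1, h2⟩ := mem_filter.1 hw
    obtain ⟨h3, h4⟩ := mem_filter.1 hq
    obtain ⟨h3', h4'⟩ := mem_filter.1 hq'
    obtain ⟨m1, m2, m3, m4, m5, m6, m7, m8, m9⟩ := move hhit hpat htog hfl (mem_powerset.1 h1) h3 rfl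
    obtain ⟨k1, k2, k3, k4, k5, k6, k7, k8, k9⟩ := move hhit hpat htog hfl (mem_powerset.1 h1) h3' rfl
    have e1 : fc V η (tg (fc V η w q) w) q' = fc V η w q' := by
      rw [fc, m3 q' ((mem_JJ hhit).1 h3').1, fc]
    have e2 : fc V η (tg (fc V η w q') w) q = fc V η w q := by
      rw [fc, k3 q ((mem_JJ hhit).1 h3).1, fc]
    rw [e1, e2, tg_comm]
  S_U n N w hw hn := by
    have h : JJ V η R w ⊆ range R := filter_subset _ _
    exact ⟨(filter_subset _ _).trans h, (filter_subset _ _).trans h⟩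
  deg N q hq := by
    refine le_trans (card_le_card (t := {q}) ?_) (card_singleton q).le
    intro q' hq'
    simp only [mem_filter] at hq'
    rw [mem_singleton]
    exact hq'.2.symm

end

end Pool.Agent.N929.OM
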