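import Pool.Agent.N929.OM.Fin
import Pool.Agent.N490.ON.Inj
import Pool.Agent.N293.OM.Exit
import Pool.Agent.N344.OM.Hit
import Pool.Agent.N401.OM.PAT
import Pool.Agent.N324.OM.PASS
import Pool.Agent.N67.OM.Surg
import Pool.Agent.N398.OM.EDG
import Pool.Agent.N458.OM.TOG
import Pool.Agent.N2.OM.FE
import Pool.Agent.N239.OM.MANY

/-!
# The path of the loop O(n) model in general domains: all together
-/

set_option autoImplicit false
set_option linter.unusedVariables false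

namespace Pool.Agent.N929.OM

open Finset Pool.Agent.N929.ON
open scoped Classical
open Pool.Agent.N929.EG Pool.Agent.N929.EG.Seq

noncomputable section

theorem inj_all : Pool.Agent.N929.ON.S_INJ := Pool.Agent.N490.ON.inj

theorem exit_all : S_EXIT := Pool.Agent.N293.OM.exit inj_all

theorem hit_all : S_HIT := Pool.Agent.N344.OM.hit inj_all exit_all

theorem fe_all : S_FE := Pool.Agent.N2.OM.fe inj_all

theorem tog_all : S_TOG :=
  Pool.Agent.N458.OM.tog inj_all exit_all hit_all Pool.Agent.N401.OM.pat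
    Pool.Agent.N324.OM.pass (Pool.Agent.N67.OM.surg inj_all) Pool.Agent.N398.OM.edg_flip

theorem many_all : S_MANY :=
  Pool.Agent.N239.OM.many hit_all Pool.Agent.N401.OM.pat fe_all

/-- **The law of the number of steps, all orders** -/
theorem fin_all : ∀ n x : ℝ, 0 < n → 0 < x → ∀ r : ℕ, ∃ B : ℝ, 0 < B ∧
      ∀ (V : Finset (ℤ × ℤ)) (η : ℤ × ℤ → Bool) (R : ℕ), 1 ≤ R →
      Flat V η R → ∀ (P : Finset (ℤ × ℤ)) (G : Finset (ℤ × ℤ) → ℝ), B * P.card ≤ R →
      (∀ S, 0 ≤ G S ∧ G S ≤ 1) → Inv V η R P G →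
      ∀ g : ℕ → ℝ, (∀ m, |g m| ≤ 1) →
      |∑ S ∈ V.powerset, wt V n x (cfg V η S) * (G S * D 2 r g (len V (cfg V η S)))| ≤
      B * ((∑ S ∈ V.powerset, wt V n x (cfg V η S) * G S) / Real.sqrt R ^ r +
        Real.exp (-((R : ℝ) / B)) * ∑ S ∈ V.powerset, wt V n x (cfg V η S)) :=
  finM hit_all Pool.Agent.N401.OM.pat tog_all many_all

theorem front_step (σ : ℤ × ℤ → Bool) (s : St) (k : ℤ) (h : Q k (front s)) :
    Q (k + 1) (front (step σ s)) := by
  obtain ⟨⟨x, y⟩, d⟩ := s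
  unfold step
  split_ifs
  all_goals
    unfold Q front at h ⊢
    fin_cases d <;> simp [dir] at h ⊢ <;> omega

theorem front_pt (σ : ℤ × ℤ → Bool) (i : ℕ) : Q ((i : ℤ) + 1) (front (pt σ i)) := by
  induction i with
  | zero =>
    unfold pt start Q front
    simp [dir]
  | succ i ih =>
    unfold pt at ih ⊢
    rw [Function.iterate_succ_apply']
    have := front_step σ _ _ ih
    push_cast
    exact this

theorem len_ge {V : Finset (ℤ × ℤ)} {η : ℤ × ℤ → Bool} {R : ℕ} (hR : 1 ≤ R) (hfl : Flat V η R)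
    (S : Finset (ℤ × ℤ)) : R ≤ len V (cfg V η S) := by
  obtain ⟨i, s, h1, h2⟩ := hit_all.1 V η (cfg V η S) R hfl (bdy_cfg _ _ _) (R : ℤ)
    (by exact_mod_cast hR) le_rfl
  refine le_trans ?_ h2
  by_contra h3
  push Not at h3
  refine h1.2.1 ?_
  have h4 := front_pt (cfg V η S) i
  rw [h1.1] at h4
  unfold Q at h4 ⊢
  omega

theorem fin_inn (V : Finset (ℤ × ℤ)) : {s : St | Inn V s}.Finite := by
  have h1 : {s : St | Inn V s} ⊆ (fun p : (ℤ × ℤ) × Fin 6 × Bool =>
      if p.2.2 = true then ((p.1, p.2.1) : St) else (p.1 - dir p.2.1, p.2.1)) ''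
        ((V : Set (ℤ × ℤ)) ×ˢ (Set.univ : Set (Fin 6 × Bool))) := by
    rintro ⟨l, k⟩ (h | h)
    · exact ⟨(l, k, true), ⟨h, trivial⟩, by simp⟩
    · refine ⟨(rt (l, k), k, false), ⟨h, trivial⟩, ?_⟩
      unfold rt
      simp
  exact Set.Finite.subset ((V.finite_toSet.prod Set.finite_univ).image _) h1

end

end Pool.Agent.N929.OM
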