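import Pool.Agent.N929.OM.Asm
import Pool.Agent.N929.ON.Fin

/-!
# The path of the loop O(n) model in general domains: the law of the number of steps
-/

set_option autoImplicit false
set_option linter.unusedVariables false

namespace Pool.Agent.N929.OM

open Finset Pool.Agent.N929.ON
open scoped Classical
open Pool.Agent.N929.EG Pool.Agent.N929.EG.Seq

noncomputable section

/-- `F` does not change if the sign of one face in the triangle, not in `P`, is changed in such a way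
that the loops stay the same -/
def Inv (V : Finset (ℤ × ℤ)) (η : ℤ × ℤ → Bool) (R : ℕ) (P : Finset (ℤ × ℤ))
    (F : Finset (ℤ × ℤ) → ℝ) : Prop :=
  ∀ S S' : Finset (ℤ × ℤ), S ⊆ V → S' ⊆ V → ∀ f, Q R f → f ∉ P →
    (∀ g, g ≠ f → (g ∈ S ↔ g ∈ S')) → loops V (cfg V η S) = loops V (cfg V η S') → F S = F S'

/-- the shells without faces in `P` -/
def free (R : ℕ) (P : Finset (ℤ × ℤ)) : Finset ℕ :=
  (range R).filter (fun j => ∀ f ∈ P, ¬ (Q ((3 * j + 4 : ℕ) : ℤ) f ∧ ¬ Q ((3 * j + 1 : ℕ) : ℤ) f))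

theorem shell_inj {f : ℤ × ℤ} {j j' : ℕ}
    (h : Q ((3 * j + 4 : ℕ) : ℤ) f ∧ ¬ Q ((3 * j + 1 : ℕ) : ℤ) f)
    (h' : Q ((3 * j' + 4 : ℕ) : ℤ) f ∧ ¬ Q ((3 * j' + 1 : ℕ) : ℤ) f) : j = j' := by
  obtain ⟨a1, a2⟩ := h
  obtain ⟨b1, b2⟩ := h'
  unfold Q at a1 a2 b1 b2
  push_cast at a1 a2 b1 b2
  omega

theorem card_free (R : ℕ) (P J : Finset _) (hJ : J ⊆ range R) :
    J.card ≤ (J ∩ free R P).card + P.card := by
  have h1 : J.card = (J ∩ free R P).card + (J \ free R P).card := by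
    rw [add_comm, Finset.card_sdiff_add_card_inter]
  have h2 : (J \ free R P).card ≤ P.card := by
    have h3 : ∀ j ∈ J \ free R P, ∃ f ∈ P,
        (Q ((3 * j + 4 : ℕ) : ℤ) f ∧ ¬ Q ((3 * j + 1 : ℕ) : ℤ) f) := by
      intro j hj
      rw [mem_sdiff] at hj
      obtain ⟨h4, h5⟩ := hj
      by_contra h6
      push Not at h6
      refine h5 (mem_filter.2 ⟨hJ h4, ?_⟩)
      intro f hf hc
      exact hc.2 (h6 f hf hc.1)
    choose φ hφ1 hφ2 using h3
    refine Finset.card_le_card_of_injOn (fun j => if h : j ∈ J \ free R P then φ j h else (0, 0))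
      ?_ ?_
    · intro j hj
      have hj' : j ∈ J \ free R P := hj
      simp only [dif_pos hj']
      exact hφ1 j hj'
    · intro j hj j' hj' he
      have hk : j ∈ J \ free R P := hj
      have hk' : j' ∈ J \ free R P := hj'
      simp only [dif_pos hk, dif_pos hk'] at he
      have e1 := hφ2 j hk
      rw [he] at e1
      exact shell_inj e1 (hφ2 j' hk')
  omega

/-- **The law of the number of steps, all orders** -/
theorem finM (hhit : S_HIT) (hpat : S_PAT) (htog : S_TOG) (hmany : S_MANY) :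
    ∀ n x : ℝ, 0 < n → 0 < x → ∀ r : ℕ, ∃ B : ℝ, 0 < B ∧
      ∀ (V : Finset (ℤ × ℤ)) (η : ℤ × ℤ → Bool) (R : ℕ), 1 ≤ R →
      Flat V η R → ∀ (P : Finset (ℤ × ℤ)) (G : Finset (ℤ × ℤ) → ℝ), B * P.card ≤ R →
      (∀ S, 0 ≤ G S ∧ G S ≤ 1) → Inv V η R P G →
      ∀ g : ℕ → ℝ, (∀ m, |g m| ≤ 1) →
      |∑ S ∈ V.powerset, wt V n x (cfg V η S) * (G S * D 2 r g (len V (cfg V η S)))| ≤
      B * ((∑ S ∈ V.powerset, wt V n x (cfg V η S) * G S) / Real.sqrt R ^ r +
        Real.exp (-((R : ℝ) / B)) * ∑ S ∈ V.powerset, wt V n x (cfg V η S)) := by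
  intro n x hn hx r
  have hc : 0 < (1 + x ^ 2) / Real.sqrt (x ^ 2) := by
    have : 0 < Real.sqrt (x ^ 2) := Real.sqrt_pos.2 (by positivity)
    positivity
  obtain ⟨C, hC, h⟩ := gc1 hc 2 r
  obtain ⟨C₀, hC₀, hm⟩ := hmany n x hn hx
  obtain ⟨C', hC'e⟩ : ∃ C' : ℝ, C' = 2 * C₀ := ⟨_, rfl⟩
  have hC₀0 : 0 < C₀ := by linarith
  have hC' : 1 ≤ C' := by linarith
  have hC'0 : 0 < C' := by linarith
  have hB0 : 0 < C * Real.sqrt C' ^ r + C * C' + C' := by positivity
  have hBC : C' ≤ C * Real.sqrt C' ^ r + C * C' + C' := by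
    have : 0 < C * Real.sqrt C' ^ r + C * C' := by positivity
    linarith
  refine ⟨C * Real.sqrt C' ^ r + C * C' + C', hB0, ?_⟩
  intro V η R hR hfl P G hP hG hGI g hg
  have hL0 : (0 : ℝ) < R := by exact_mod_cast hR
  have hP' : C' * (P.card : ℝ) ≤ R :=
    (mul_le_mul_of_nonneg_right hBC (Nat.cast_nonneg _)).trans hP
  obtain ⟨Y, hY⟩ : ∃ Y, Y = sysM hhit hpat htog hfl := ⟨_, rfl⟩
  have yK : ∀ N, Y.K N = V.powerset.filter (fun S => len V (cfg V η S) = N) := by
    intro N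
    rw [hY]
    rfl
  have yl : ∀ S, Y.len S = len V (cfg V η S) := by
    intro S
    rw [hY]
    rfl
  have yS : ∀ S, Y.S S = (JJ V η R S).filter (fun j => ¬ Lg V η S j) := by
    intro S
    rw [hY]
    rfl
  have yB : ∀ S, Y.B S = (JJ V η R S).filter (fun j => Lg V η S j) := by
    intro S
    rw [hY]
    rfl
  have yi : ∀ S j, Y.ins S j = tg (fc V η S j) S := by
    intro S j
    rw [hY]
    rfl
  have yc : ∀ q q', Y.cf q q' ↔ q = q' := by
    intro q q'
    rw [hY]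
    rfl
  obtain ⟨Lf, hLf⟩ : ∃ Lf, Lf = free R P := ⟨_, rfl⟩
  have hfam : Fam Y Lf := by
    intro q _ q' _ hne hcf
    exact hne ((yc q q').1 hcf)
  obtain ⟨st, fl, hfl'⟩ := s_bij _ _ Y Lf hfam
  obtain ⟨N, hN⟩ : ∃ N : ℕ, N = V.powerset.sup (fun S => len V (cfg V η S)) :=
    ⟨_, rfl⟩
  have hNK : ∀ m, N < m → Y.K m = ∅ := by
    intro m hm
    rw [yK, filter_eq_empty_iff]
    intro S hS he
    have h1 : len V (cfg V η S) ≤ N := by
      rw [hN]
      exact le_sup (f := fun S => len V (cfg V η S)) hS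
    omega
  have hAll : All Y N = V.powerset := by
    ext S
    rw [mem_All, yK, yl, mem_filter]
    constructor
    · rintro ⟨⟨h1, -⟩, -⟩
      exact h1
    · intro h1
      refine ⟨⟨h1, rfl⟩, ?_⟩
      rw [hN]
      exact le_sup (f := fun S => len V (cfg V η S)) h1
  have hSl : ∀ S, (Sl Y Lf S).card = (JJ V η R S ∩ Lf).card := by
    intro S
    refine sl_card Y _ _ S fun j => ?_
    rw [yS, yB, mem_filter, mem_filter, mem_inter]
    constructor
    · rintro ⟨h1, h2⟩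
      refine ⟨h2, ?_⟩
      by_cases hl : Lg V η S j
      · exact Or.inr ⟨h1, hl⟩
      · exact Or.inl ⟨h1, hl⟩
    · rintro ⟨h2, h1 | h1⟩
      · exact ⟨h1.1, h2⟩
      · exact ⟨h1.1, h2⟩
  -- the weight
  obtain ⟨F, hF⟩ : ∃ F : Finset (ℤ × ℤ) → ℝ, F = fun S => wt V n x (cfg V η S) /
    x ^ len V (cfg V η S) * G S := ⟨_, rfl⟩
  have hw0 : ∀ S, 0 < wt V n x (cfg V η S) := by
    intro S
    unfold wt
    positivity
  have hF0 : ∀ S, 0 ≤ F S := by
    intro S
    rw [hF]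
    have := (hG S).1
    have := hw0 S
    positivity
  have hFx : ∀ S, x ^ Y.len S * F S = wt V n x (cfg V η S) * G S := by
    intro S
    rw [hF, yl]
    have : x ^ len V (cfg V η S) ≠ 0 := by positivity
    simp only
    field_simp
  have hinv : InvOff Y (range R \ Lf) F := by
    intro m S hS q hq hqE
    rw [yK, mem_filter, mem_powerset] at hS
    rw [yS, mem_filter] at hq
    rw [yi]
    obtain ⟨mS, -, -, -, -, m6, m7, mQ, mS1, mS2⟩ := move hhit hpat htog hfl hS.1 hq.1 rfl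
    obtain ⟨m8, m9⟩ := m6 hq.2
    have hqL : q ∈ Lf := by
      by_contra hh
      exact hqE (mem_sdiff.2 ⟨(filter_subset _ _ : JJ V η R S ⊆ range R) hq.1, hh⟩)
    have hfP : fc V η S q ∉ P := by
      intro hh
      rw [hLf] at hqL
      exact (mem_filter.1 hqL).2 _ hh ⟨mS1, mS2⟩
    have mG : G (tg (fc V η S q) S) = G S := by
      refine hGI _ _ mS hS.1 (fc V η S q) mQ hfP ?_ m7
      intro g' hg'
      rw [mem_tg]
      tauto
    rw [hF]
    simp only
    rw [mG, m8]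
    unfold wt
    rw [m9, m7, pow_add, pow_add]
    have : x ^ len V (cfg V η S) ≠ 0 := by positivity
    have hx2 : x ^ 2 ≠ 0 := by positivity
    field_simp
  have key := h x hx le_rfl _ _ Y (by rw [hY]; rfl) N hNK Lf (range R \ Lf) st fl hfl'
    (fun q hq hq' => (mem_sdiff.1 hq').2 hq) F g hF0 hinv hg
  rw [hAll] at key
  have e1 : ∑ S ∈ V.powerset, x ^ Y.len S * (F S * D 2 r g (Y.len S)) =
      ∑ S ∈ V.powerset, wt V n x (cfg V η S) *
        (G S * D 2 r g (len V (cfg V η S))) := by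
    refine sum_congr rfl fun S _ => ?_
    rw [← mul_assoc, hFx, yl, mul_assoc]
  rw [e1] at key
  refine key.trans ?_
  -- the error term
  have hZ0 : 0 ≤ ∑ S ∈ V.powerset, wt V n x (cfg V η S) :=
    sum_nonneg fun S _ => (hw0 S).le
  have hG0 : 0 ≤ ∑ S ∈ V.powerset, wt V n x (cfg V η S) * G S :=
    sum_nonneg fun S _ => mul_nonneg (hw0 S).le (hG S).1
  have hsL : 0 < Real.sqrt R := Real.sqrt_pos.2 hL0
  have hsC : 0 < Real.sqrt C' := Real.sqrt_pos.2 hC'0
  have e2 : ∑ S ∈ V.powerset, x ^ Y.len S * (F S /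
      Real.sqrt ((Sl Y Lf S).card + 1) ^ r) ≤
      Real.sqrt C' ^ r * ((∑ S ∈ V.powerset, wt V n x (cfg V η S) * G S) / Real.sqrt R ^ r) +
      ∑ S ∈ V.powerset.filter (fun S => C₀ * ((JJ V η R S).card : ℝ) < R),
        wt V n x (cfg V η S) := by
    rw [sum_filter, sum_div, mul_sum, ← sum_add_distrib]
    refine sum_le_sum fun S _ => ?_
    rw [hSl, ← mul_div_assoc, hFx]
    obtain ⟨m, hm'⟩ : ∃ m : ℝ, m = ((JJ V η R S ∩ Lf).card : ℝ) := ⟨_, rfl⟩
    rw [← hm']
    have g0 := (hG S).1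
    have g1 := (hG S).2
    have w0 := hw0 S
    have hj0 : (0 : ℝ) ≤ m := by
      rw [hm']
      exact Nat.cast_nonneg _
    have hjc : ((JJ V η R S).card : ℝ) ≤ m + P.card := by
      rw [hm', hLf]
      exact_mod_cast card_free R P (JJ V η R S) (filter_subset _ _)
    have hsj : 1 ≤ Real.sqrt (m + 1) := by
      rw [Real.one_le_sqrt]
      linarith
    have hwg : 0 ≤ wt V n x (cfg V η S) * G S := mul_nonneg w0.le g0
    by_cases hs : C₀ * ((JJ V η R S).card : ℝ) < R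
    · rw [if_pos hs]
      have a1 : wt V n x (cfg V η S) * G S / Real.sqrt (m + 1) ^ r ≤ wt V n x (cfg V η S) := by
        refine (div_le_self hwg (one_le_pow₀ hsj)).trans ?_
        nlinarith
      have a2 : 0 ≤ Real.sqrt C' ^ r * (wt V n x (cfg V η S) * G S / Real.sqrt R ^ r) := by
        positivity
      linarith
    · rw [if_neg hs, add_zero]
      push Not at hs
      have a0 : (R : ℝ) ≤ C' * (m + 1) := by
        have : C₀ * ((JJ V η R S).card : ℝ) ≤ C₀ * (m + P.card) :=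
          mul_le_mul_of_nonneg_left hjc hC₀0.le
        have h8 : C₀ * (P.card : ℝ) ≤ R / 2 := by
          rw [hC'e] at hP'
          linarith
        rw [hC'e]
        nlinarith
      have a1 : Real.sqrt R ≤ Real.sqrt C' * Real.sqrt (m + 1) := by
        rw [← Real.sqrt_mul hC'0.le]
        exact Real.sqrt_le_sqrt a0
      have a2 : Real.sqrt R ^ r ≤ Real.sqrt C' ^ r * Real.sqrt (m + 1) ^ r := by
        rw [← mul_pow]
        exact pow_le_pow_left₀ hsL.le a1 r
      have hp1 : 0 < Real.sqrt (m + 1) ^ r := pow_pos (lt_of_lt_of_le one_pos hsj) r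
      have hp2 : 0 < Real.sqrt R ^ r := by positivity
      rw [← mul_div_assoc, div_le_div_iff₀ hp1 hp2]
      calc _ ≤ wt V n x (cfg V η S) * G S * (Real.sqrt C' ^ r *
            Real.sqrt (m + 1) ^ r) := mul_le_mul_of_nonneg_left a2 hwg
        _ = _ := by ring
  obtain ⟨X, hX⟩ : ∃ X, X = ∑ S ∈ V.powerset, x ^ Y.len S * (F S /
      Real.sqrt ((Sl Y Lf S).card + 1) ^ r) := ⟨_, rfl⟩
  rw [← hX] at e2 ⊢
  have hm2 := hm V η R hR hfl
  have hm3 : ∑ S ∈ V.powerset.filter (fun S => C₀ * ((JJ V η R S).card : ℝ) < R),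
      wt V n x (cfg V η S) ≤ C' * Real.exp (-((R : ℝ) / C')) *
        ∑ S ∈ V.powerset, wt V n x (cfg V η S) := by
    refine hm2.trans (mul_le_mul_of_nonneg_right ?_ hZ0)
    refine mul_le_mul (by linarith) ?_ (Real.exp_pos _).le hC'0.le
    apply Real.exp_le_exp.mpr
    have := div_le_div_of_nonneg_left hL0.le hC₀0 (by linarith : C₀ ≤ C')
    linarith
  exact fin_aux hC hC' hL0 r hZ0 (div_nonneg hG0 (pow_nonneg hsL.le r)) hm3 e2

end

end Pool.Agent.N929.OM
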