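import Pool.Agent.N929.ON.Stm

/-!
# The path of the loop O(n) model in general domains (project OM): definitions and statements

As in project ON (`dir`, `St`, `rt`, `front`, `Val`, `step`, `flip`, `Tch`), now for an arbitrary
finite set `V` of faces and arbitrary signs `η` outside, flat near the start: in the triangle `Q R`
the faces of the rows `≥ 1` are in `V` and the faces of the rows `≤ 0` are outside, `+` in the columns
`≤ 0` and `-` in the columns `≥ 1`.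
-/

set_option autoImplicit false
set_option linter.unusedVariables false

namespace Pool.Agent.N929.OM

open Finset Pool.Agent.N929.ON
open scoped Classical

noncomputable section

/-- the triangles -/
def Q (k : ℤ) (f : ℤ × ℤ) : Prop := f.1 ≤ k ∧ f.2 ≤ k ∧ -k ≤ f.1 + f.2

/-- the domain is flat near the start -/
def Flat (V : Finset (ℤ × ℤ)) (η : ℤ × ℤ → Bool) (R : ℕ) : Prop :=
  ∀ f, Q R f → (1 ≤ f.2 → f ∈ V) ∧ (f.2 ≤ 0 → f ∉ V ∧ η f = decide (f.1 ≤ 0))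

/-- the configuration with the set `S` of `+` faces in the domain -/
def cfg (V : Finset (ℤ × ℤ)) (η : ℤ × ℤ → Bool) (S : Finset (ℤ × ℤ)) (f : ℤ × ℤ) : Bool :=
  if f ∈ V then decide (f ∈ S) else η f

/-- `σ` has the boundary values `η` -/
def Bdy (V : Finset (ℤ × ℤ)) (η σ : ℤ × ℤ → Bool) : Prop := ∀ f, f ∉ V → σ f = η f

/-- the edge by which the path enters -/
def start : St := ((0, 0), 0)

/-- the path -/
def pt (σ : ℤ × ℤ → Bool) (i : ℕ) : St := (step σ)^[i] start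

/-- an edge of the domain: at least one of its two faces is in `V` -/
def Inn (V : Finset (ℤ × ℤ)) (s : St) : Prop := s.1 ∈ V ∨ rt s ∈ V

/-- the number of edges of the path in the domain -/
def len (V : Finset (ℤ × ℤ)) (σ : ℤ × ℤ → Bool) : ℕ := sInf {i | ¬ Inn V (pt σ (i + 1))}

/-- the number of all edges of domain walls in the domain -/
def edg (V : Finset (ℤ × ℤ)) (σ : ℤ × ℤ → Bool) : ℕ := Set.ncard {s : St | Val σ s ∧ Inn V s}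

/-- the closed loops in the domain, as sets of oriented edges -/
def loops (V : Finset (ℤ × ℤ)) (σ : ℤ × ℤ → Bool) : Set (Set St) :=
  {O | ∃ s, Val σ s ∧ (∃ i, 1 ≤ i ∧ (step σ)^[i] s = s) ∧ O = {t | ∃ i, (step σ)^[i] s = t} ∧
    ∀ t ∈ O, Inn V t}

/-- the weight -/
def wt (V : Finset (ℤ × ℤ)) (n x : ℝ) (σ : ℤ × ℤ → Bool) : ℝ :=
  x ^ edg V σ * n ^ (loops V σ).ncard

/-- the path is at `s` after `i` steps, and this is the first time that the face in front is outside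
`Q k` -/
def Hit (σ : ℤ × ℤ → Bool) (k : ℤ) (i : ℕ) (s : St) : Prop :=
  pt σ i = s ∧ ¬ Q k (front s) ∧ ∀ i' < i, Q k (front (pt σ i'))

/-- the three kinds of hitting states: at the upper, the left and the right side of `Q k` -/
def Side (k : ℤ) (s : St) : Prop :=
  (s.2 = 0 ∧ s.1.2 = k) ∨ (s.2 = 2 ∧ s.1.1 + s.1.2 = -k ∧ 0 ≤ s.1.2) ∨
    (s.2 = 4 ∧ s.1.1 = k ∧ 1 ≤ s.1.2)

/-- the `+` faces of the good pattern at `s` -/
def pls (s : St) : List (ℤ × ℤ) :=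
  (if s.2 = 0 then [(0, 1), (0, 2), (0, 3)] else if s.2 = 2 then [(-1, 0), (-2, 0), (-3, 0)]
    else [(1, 0), (1, 1), (2, 1), (3, 0)]).map (fun v => s.1 + v)

/-- the `-` faces of the good pattern at `s` -/
def mns (s : St) : List (ℤ × ℤ) :=
  (if s.2 = 0 then [(1, 1), (2, 1), (2, 2), (1, 3)] else
    if s.2 = 2 then [(-2, 1), (-3, 2), (-4, 2), (-4, 1)]
    else [(1, -1), (2, -1), (3, -1)]).map (fun v => s.1 + v)

/-- the good pattern -/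
def Good (σ : ℤ × ℤ → Bool) (s : St) : Prop :=
  (∀ f ∈ pls s, σ f = true) ∧ ∀ f ∈ mns s, σ f = false

/-- the face in the middle of the pattern -/
def mid (s : St) : ℤ × ℤ :=
  s.1 + (if s.2 = 0 then (1, 2) else if s.2 = 2 then (-3, 1) else (2, 0))

/-- the path makes the detour around the face in the middle -/
def Lng (σ : ℤ × ℤ → Bool) (s : St) : Prop := σ (mid s) = decide (s.2 ≠ 4)

/-- the state after the pattern -/
def nx (s : St) : St :=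
  (s.1 + (if s.2 = 0 then (0, 3) else if s.2 = 2 then (-3, 0) else (3, 0)), s.2)

/-! ### statements -/

/-- EXIT: the path leaves the domain, and does not return before to a state -/
def S_EXIT : Prop := ∀ (V : Finset (ℤ × ℤ)) (η σ : ℤ × ℤ → Bool) (R : ℕ), 1 ≤ R → Flat V η R →
  Bdy V η σ → Val σ start ∧ ¬ Inn V start ∧ (∃ i, ¬ Inn V (pt σ (i + 1))) ∧
    (∀ i, 1 ≤ i → i ≤ len V σ → Inn V (pt σ i)) ∧ ¬ Inn V (pt σ (len V σ + 1))

/-- HIT -/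
def S_HIT : Prop :=
  (∀ (V : Finset (ℤ × ℤ)) (η σ : ℤ × ℤ → Bool) (R : ℕ), Flat V η R → Bdy V η σ →
    ∀ k : ℤ, 1 ≤ k → k ≤ R → ∃ i s, Hit σ k i s ∧ i ≤ len V σ) ∧
  (∀ (V : Finset (ℤ × ℤ)) (η σ : ℤ × ℤ → Bool) (R : ℕ), Flat V η R → Bdy V η σ →
    ∀ k : ℤ, 1 ≤ k → k ≤ R → ∀ i s, Hit σ k i s → i ≤ len V σ ∧ Side k s ∧ Q k s.1 ∧ Q k (rt s)) ∧
  (∀ (σ σ' : ℤ × ℤ → Bool) (k : ℤ) (i : ℕ) (s : St), Hit σ k i s →
    (∀ f : ℤ × ℤ, Q k f → σ' f = σ f) → Hit σ' k i s ∧ ∀ i' ≤ i, pt σ' i' = pt σ i') ∧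
  ∀ (σ : ℤ × ℤ → Bool) (k : ℤ) (i i' : ℕ) (s s' : St), Hit σ k i s → Hit σ k i' s' →
    i = i' ∧ s = s'

/-- PAT: the faces of the pattern -/
def S_PAT : Prop := ∀ (k : ℤ) (s : St), 1 ≤ k → Side k s → Q k s.1 → Q k (rt s) →
  (∀ f ∈ pls s ++ mns s ++ [mid s], Q (k + 3) f ∧ ¬ Q k f) ∧ mid s ∉ pls s ++ mns s ∧
  1 ≤ (mid s).2 ∧ (∀ f ∈ pls s, f.2 ≤ 0 → f.1 ≤ 0) ∧ (∀ f ∈ mns s, f.2 ≤ 0 → 1 ≤ f.1) ∧
  ¬ Q (k + 3) (front (nx s)) ∧ (pls s ++ mns s).Nodup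

/-- PASS: the path in a good pattern -/
def S_PASS : Prop := ∀ (σ : ℤ × ℤ → Bool) (s : St), (s.2 = 0 ∨ s.2 = 2 ∨ s.2 = 4) → Good σ s →
  ∀ p : ℕ, p = (if Lng σ s then 8 else 6) → (step σ)^[p] s = nx s ∧
    (∀ i < p, front ((step σ)^[i] s) ∈ pls s ++ mns s ++ [mid s]) ∧
    ∀ t, Val σ t → Tch (mid s) t → ∃ i, 0 < i ∧ i < p ∧ (step σ)^[i] s = t

/-- SURG: changing one face which is touched by the path only between two given states -/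
def S_SURG : Prop := ∀ (V : Finset (ℤ × ℤ)) (σ σ' : ℤ × ℤ → Bool) (f : ℤ × ℤ),
  (∀ g, g ≠ f → σ' g = σ g) → ∀ (s₀ u v : St) (m p q : ℕ), Val σ s₀ → Val σ' s₀ → ¬ Inn V s₀ →
    (step σ)^[m] s₀ = u → (step σ')^[m] s₀ = u → (step σ)^[p] u = v → (step σ')^[q] u = v →
    (∀ i, 1 ≤ i → i ≤ m + p → Inn V ((step σ)^[i] s₀)) →
    (∀ i, 1 ≤ i → i ≤ m + q → Inn V ((step σ')^[i] s₀)) →
    (∀ t, Val σ t → Tch f t → ∃ i, 0 < i ∧ i < p ∧ (step σ)^[i] u = t) →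
    (∀ t, Val σ' t → Tch f t → ∃ i, 0 < i ∧ i < q ∧ (step σ')^[i] u = t) →
    (∀ t, (∀ i, 1 ≤ i → i ≤ m + p + t → Inn V ((step σ)^[i] s₀)) → ∀ t' ≤ t + 1,
      (step σ')^[m + q + t'] s₀ = (step σ)^[m + p + t'] s₀) ∧ loops V σ' = loops V σ

/-- EDG: in a good pattern the detour has two more edges -/
def S_EDG : Prop := ∀ (V : Finset (ℤ × ℤ)) (σ : ℤ × ℤ → Bool) (s : St),
  (s.2 = 0 ∨ s.2 = 2 ∨ s.2 = 4) → mid s ∈ V → Good σ s → ¬ Lng σ s →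
  edg V (flip (mid s) σ) = edg V σ + 2

/-- TOG: changing the face in the middle of a good pattern on the path -/
def S_TOG : Prop := ∀ (V : Finset (ℤ × ℤ)) (η σ : ℤ × ℤ → Bool) (R : ℕ), Flat V η R →
  Bdy V η σ → ∀ (j i : ℕ) (s : St), 3 * j + 4 ≤ R → Hit σ (3 * j + 1 : ℕ) i s → Good σ s →
    ∀ σ', σ' = flip (mid s) σ →
    mid s ∈ V ∧ Q R (mid s) ∧ Bdy V η σ' ∧ Hit σ' (3 * j + 1 : ℕ) i s ∧ Good σ' s ∧
    (Lng σ' s ↔ ¬ Lng σ s) ∧
    (¬ Lng σ s → len V σ' = len V σ + 2 ∧ edg V σ' = edg V σ + 2) ∧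
    loops V σ' = loops V σ ∧
    ∀ j' : ℕ, j' ≠ j → 3 * j' + 4 ≤ R → ∀ s' : St,
      ((∃ i', Hit σ' (3 * j' + 1 : ℕ) i' s') ↔ ∃ i', Hit σ (3 * j' + 1 : ℕ) i' s') ∧
      ((∃ i', Hit σ (3 * j' + 1 : ℕ) i' s') →
        ((Good σ' s' ↔ Good σ s') ∧ (Lng σ' s' ↔ Lng σ s')))

/-- FE: finite energy -/
def S_FE : Prop := ∀ n x : ℝ, 0 < n → 0 < x → ∃ κ : ℝ, 0 < κ ∧
  ∀ (V : Finset (ℤ × ℤ)) (σ : ℤ × ℤ → Bool), (loops V σ).Finite ∧ 0 < wt V n x σ ∧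
    ∀ f ∈ V, κ * wt V n x σ ≤ wt V n x (flip f σ)

/-- the numbers `j` for which the path finds a good pattern when it leaves `Q (3 j + 1)` -/
def JJ (V : Finset (ℤ × ℤ)) (η : ℤ × ℤ → Bool) (R : ℕ) (S : Finset (ℤ × ℤ)) : Finset ℕ :=
  (range R).filter (fun j => 3 * j + 4 ≤ R ∧ ∃ i s, Hit (cfg V η S) (3 * j + 1 : ℕ) i s ∧
    Good (cfg V η S) s)

/-- MANY: good patterns are frequent on the path -/
def S_MANY : Prop := ∀ n x : ℝ, 0 < n → 0 < x → ∃ C : ℝ, 1 ≤ C ∧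
  ∀ (V : Finset (ℤ × ℤ)) (η : ℤ × ℤ → Bool) (R : ℕ), 1 ≤ R → Flat V η R →
    ∑ S ∈ V.powerset.filter (fun S => C * ((JJ V η R S).card : ℝ) < R),
      wt V n x (cfg V η S) ≤
      C * Real.exp (-((R : ℝ) / C)) * ∑ S ∈ V.powerset, wt V n x (cfg V η S)

end

end Pool.Agent.N929.OM
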